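import Pool.Agent.Q234.HF.Core
import Pool.Agent.Q234.HF.Exp

/-!
# The reduction to 3-edge-connected cubic graphs for flows with values in a symmetric set

The proofs are those of `Pool.Agent.Q234.HF` (hand-in `CubicGirthFive` of helper234), for an arbitrary
symmetric set of values and without the circuits of length at most four.
-/

set_option autoImplicit false
set_option linter.unusedSectionVars false

namespace Pool.Agent.Q253.OR
open Finset Pool.Agent.H160R2.HF Pool.Agent.H160R2.HF.OrGraph Pool.Agent.Q234.HF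
open Pool.Agent.TH60.HE (nl merge nl_merge merge_bridgeless)

variable {V E : Type*} [Fintype V] [Fintype E] [DecidableEq V] [DecidableEq E]
variable {Γ : Type*} [AddCommGroup Γ] {A : Γ → Prop}

/-- there is a flow with values in `A` -/
def Gd (A : Γ → Prop) (G : OrGraph V E) : Prop :=
  ∃ ψ : E → Γ, (∀ v, gn G ψ v = 0) ∧ ∀ e, A (ψ e)

lemma a_sg (hA : ∀ x, A x → A (-x)) (s : Prop) [Decidable s] {a : Γ} (h : A a) : A (sg s a) := by
  unfold sg
  split_ifs
  · exact h
  · exact hA _ h

/-- repairing the value of one edge of a cut with two edges -/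
lemma fix2 (hA : ∀ x, A x → A (-x)) (G : OrGraph V E) (X : Finset V) (e₁ e₂ : E) (hne : e₁ ≠ e₂)
    (hc : G.cut X = {e₁, e₂}) (ψ : E → Γ)
    (hψ : ∀ v, v ≠ G.t e₁ → v ≠ G.h e₁ → gn G ψ v = 0) (hok : ∀ e, e ≠ e₁ → A (ψ e)) :
    Gd A G := by
  have hm : e₁ ∈ G.cut X := by rw [hc]; simp
  have hxy : G.t e₁ ≠ G.h e₁ := by
    intro h
    rw [mem_cut, h] at hm
    exact hm Iff.rfl
  obtain ⟨χ, hall, hχ⟩ : ∃ χ : E → Γ, (∀ v, gn G χ v = 0) ∧ ∀ e, e ≠ e₁ → χ e = ψ e := by
    obtain ⟨c, hcd⟩ : ∃ c : Γ, c = - gn G ψ (G.t e₁) := ⟨_, rfl⟩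
    have hgn : ∀ v, gn G (fun e => ψ e + (if e = e₁ then c else 0)) v =
        gn G ψ v + ((if G.t e₁ = v then c else 0) - (if G.h e₁ = v then c else 0)) := by
      intro v
      rw [gn_add, gn_single]
    have h0 : ∀ v, v ≠ G.h e₁ → gn G (fun e => ψ e + (if e = e₁ then c else 0)) v = 0 := by
      intro v hv
      rw [hgn]
      by_cases h1 : v = G.t e₁
      · subst h1
        rw [if_pos rfl, if_neg hxy.symm, hcd]
        abel
      · rw [hψ v h1 hv, if_neg (Ne.symm h1), if_neg (Ne.symm hv)]
        simp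
    refine ⟨fun e => ψ e + (if e = e₁ then c else 0), fun v => ?_, fun e he => ?_⟩
    · by_cases hv : v = G.h e₁
      · have h1 := sum_gn G (fun e => ψ e + (if e = e₁ then c else 0))
        rw [Finset.sum_eq_single (G.h e₁) (fun b _ hb => h0 b hb)
          (fun h => absurd (Finset.mem_univ _) h)] at h1
        rw [hv]
        exact h1
      · exact h0 v hv
    · simp [he]
  refine ⟨χ, hall, ?_⟩
  intro e
  by_cases he : e = e₁
  · subst he
    have h1 := sum_gn_set G χ X
    rw [Finset.sum_eq_zero (fun v _ => hall v), hc, Finset.sum_pair hne] at h1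
    have h2 : A (χ e₂) := by
      rw [hχ e₂ hne.symm]
      exact hok e₂ hne.symm
    have h3 : sg (G.t e ∈ X) (χ e) = - sg (G.t e₂ ∈ X) (χ e₂) :=
      eq_neg_of_add_eq_zero_left h1.symm
    have h4 : A (sg (G.t e ∈ X) (χ e)) := by
      rw [h3]
      exact hA _ (a_sg hA _ h2)
    have h5 := a_sg hA (G.t e ∈ X) h4
    rw [sg_sg] at h5
    exact h5
  · rw [hχ e he]
    exact hok e he

/-- suppressing a vertex with two edges -/
lemma stepA (hA : ∀ x, A x → A (-x)) {G : OrGraph V E} (hG : G.Bridgeless) (hd : ∀ v, (G.cut {v}).card ≤ 3) {v : V}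
    (hv : (G.cut {v}).card = 2) :
    ∃ G' : OrGraph V E, G'.Bridgeless ∧ (∀ v, (G'.cut {v}).card ≤ 3) ∧ nl G' < nl G ∧
      (Gd A G' → Gd A G) := by
  obtain ⟨a, b, hab, hc⟩ := card_eq_two.1 hv
  have hma : a ∈ G.cut {v} := by rw [hc]; simp
  have hma' := mem_cut_one.1 hma
  have hpq : G.t a ≠ G.h a := by
    intro h
    rw [h] at hma'
    exact hma' Iff.rfl
  refine ⟨merge G a, merge_bridgeless hG a, ?_, nl_merge hpq, ?_⟩
  · intro w
    by_cases hwq : w = G.h a
    · have h1 : (merge G a).cut {w} = ∅ := by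
        ext z
        rw [mem_cut_one]
        have h2 : (merge G a).t z ≠ w := by
          unfold merge
          rw [hwq]
          dsimp only
          split_ifs with h3
          · exact hpq
          · exact h3
        have h3 : (merge G a).h z ≠ w := by
          unfold merge
          rw [hwq]
          dsimp only
          split_ifs with h3
          · exact hpq
          · exact h3
        simp [h2, h3]
      rw [h1]
      simp
    · by_cases hwp : w = G.t a
      · have hp3 := hd (G.t a)
        have hq3 := hd (G.h a)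
        have hap : a ∈ G.cut {G.t a} := (joins_ends G a).mem_cut_one hpq
        have haq : a ∈ G.cut {G.h a} := (joins_ends G a).symm'.mem_cut_one hpq.symm
        have hsub : (merge G a).cut {w} ⊆ ((G.cut {G.t a}).erase a) ∪ ((G.cut {G.h a}).erase a) := by
          intro z hz
          rw [mem_cut_one] at hz
          unfold merge at hz
          dsimp only at hz
          rw [mem_union, mem_erase, mem_erase, mem_cut_one, mem_cut_one]
          have hza : z ≠ a := by
            rintro rfl
            apply hz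
            rw [if_neg hpq, if_pos rfl]
          by_contra h
          push Not at h
          have h1 := h.1 hza
          have h2 := h.2 hza
          apply hz
          rw [hwp]
          by_cases h3 : G.t z = G.h a
          · rw [if_pos h3, if_pos (h2.1 h3)]
          · rw [if_neg h3, if_neg (fun h => h3 (h2.2 h))]
            exact h1
        refine (card_le_card hsub).trans ((card_union_le _ _).trans ?_)
        rw [card_erase_of_mem hap, card_erase_of_mem haq]
        have h5 : v = G.t a ∨ v = G.h a := by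
          by_contra h
          push Not at h
          exact hma' ⟨fun h' => absurd h'.symm h.1, fun h' => absurd h'.symm h.2⟩
        rcases h5 with h5 | h5
        · rw [h5] at hv
          omega
        · rw [h5] at hv
          omega
      · have h1 : (merge G a).cut {w} = G.cut {w} := by
          ext z
          rw [mem_cut_one, mem_cut_one]
          have key : ∀ u : V, ((if u = G.h a then G.t a else u) = w ↔ u = w) := by
            intro u
            split_ifs with h
            · rw [h]
              exact ⟨fun h => absurd h.symm hwp, fun h => absurd h.symm hwq⟩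
            · exact Iff.rfl
          unfold merge
          dsimp only
          rw [key, key]
        rw [h1]
        exact hd w
  · rintro ⟨ψ, hψ, hok⟩
    refine fix2 hA G {v} a b hab hc ψ (fun w h1 h2 => ?_) (fun e _ => hok e)
    rw [← hψ w]
    have key : ∀ u : V, ((if u = G.h a then G.t a else u) = w ↔ u = w) := by
      intro u
      split_ifs with h
      · rw [h]
        exact ⟨fun h => absurd h.symm h1, fun h => absurd h.symm h2⟩
      · exact Iff.rfl
    symm
    exact gn_congr (fun z => key _) (fun z => key _) ψ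

/-- a cut with two edges is destroyed -/
lemma stepB (hA : ∀ x, A x → A (-x)) {G : OrGraph V E} (hG : G.Bridgeless) (hd : ∀ v, (G.cut {v}).card ≤ 3)
    (hv2 : ∀ v, (G.cut {v}).card ≠ 2) {X : Finset V} {x y : V} (hx : x ∈ X) (hy : y ∉ X)
    {e₁ e₂ : E} (hne : e₁ ≠ e₂) (hc : G.cut X = {e₁, e₂}) (hj : Joins G e₁ x y) :
    ∃ G' : OrGraph V E, G'.Bridgeless ∧ (∀ v, (G'.cut {v}).card ≤ 3) ∧ nl G' ≤ nl G ∧
      c2 G' < c2 G ∧ (Gd A G' → Gd A G) := by
  have hxy : x ≠ y := fun h => hy (h ▸ hx)
  have hX : ∀ z, z ∈ G.cut X ↔ z = e₁ ∨ z = e₂ := fun z => by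
    rw [hc, mem_insert, mem_singleton]
  have hX' : ∀ z, z ∈ G.cut Xᶜ ↔ z = e₁ ∨ z = e₂ := fun z => by
    rw [cut_compl]
    exact hX z
  have mx : e₁ ∈ G.cut {x} := hj.mem_cut_one hxy
  have my : e₁ ∈ G.cut {y} := hj.symm'.mem_cut_one hxy.symm
  have three : ∀ v, e₁ ∈ G.cut {v} → (G.cut {v}).card = 3 := by
    intro v hv
    have h1 := hd v
    have h2 := hv2 v
    have h3 := card_ne_one hG {v}
    have h4 : 0 < (G.cut {v}).card := card_pos.2 ⟨_, hv⟩
    omega
  have others : ∀ v, e₁ ∈ G.cut {v} → ∃ a b, a ≠ b ∧ e₁ ≠ a ∧ e₁ ≠ b ∧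
      ∀ z, z ∈ G.cut {v} ↔ z = e₁ ∨ z = a ∨ z = b := by
    intro v hv
    have h1 : ((G.cut {v}).erase e₁).card = 2 := by
      rw [card_erase_of_mem hv, three v hv]
    obtain ⟨a, b, hab, h2⟩ := card_eq_two.1 h1
    have h3 : ∀ z, z ∈ (G.cut {v}).erase e₁ ↔ z = a ∨ z = b := fun z => by
      rw [h2, mem_insert, mem_singleton]
    simp only [mem_erase] at h3
    refine ⟨a, b, hab, fun h => ((h3 a).2 (Or.inl rfl)).1 h.symm,
      fun h => ((h3 b).2 (Or.inr rfl)).1 h.symm, fun z => ?_⟩
    rw [← h3 z]
    constructor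
    · intro h
      by_cases hz : z = e₁
      · exact Or.inl hz
      · exact Or.inr ⟨hz, h⟩
    · rintro (rfl | h)
      · exact hv
      · exact h.2
  obtain ⟨a, b, hab, h1a, h1b, hvx⟩ := others x mx
  obtain ⟨d, c, hdc, h1d, h1c, hvy⟩ := others y my
  have hx2 : e₂ ∉ G.cut {x} := second_not_inc hG hx hX hne mx (three x mx)
  have hy2 : e₂ ∉ G.cut {y} := second_not_inc hG (mem_compl.2 hy) hX' hne my (three y my)
  have h2a : e₂ ≠ a := fun h => hx2 ((hvx _).2 (Or.inr (Or.inl h)))
  have h2b : e₂ ≠ b := fun h => hx2 ((hvx _).2 (Or.inr (Or.inr h)))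
  have h2d : e₂ ≠ d := fun h => hy2 ((hvy _).2 (Or.inr (Or.inl h)))
  have h2c : e₂ ≠ c := fun h => hy2 ((hvy _).2 (Or.inr (Or.inr h)))
  have mb := (hvx b).2 (Or.inr (Or.inr rfl))
  have mc := (hvy c).2 (Or.inr (Or.inr rfl))
  have bX : b ∉ G.cut X := fun h => ((hX b).1 h).elim (fun h => h1b h.symm) (fun h => h2b h.symm)
  have cX : c ∉ G.cut X := fun h => ((hX c).1 h).elim (fun h => h1c h.symm) (fun h => h2c h.symm)
  have hbc : b ≠ c := by
    rintro rfl
    rw [mem_cut_one] at mb mc
    rw [mem_cut, not_not] at bX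
    by_cases h1 : G.t b = x
    · have h2 : G.h b ∈ X := bX.1 (h1 ▸ hx)
      exact mc ⟨fun h => absurd (h1.symm.trans h) hxy, fun h => absurd (h ▸ h2) hy⟩
    · by_cases h3 : G.h b = x
      · have h2 : G.t b ∈ X := bX.2 (h3 ▸ hx)
        exact mc ⟨fun h => absurd (h ▸ h2) hy, fun h => absurd (h3.symm.trans h) hxy⟩
      · exact mb ⟨fun h => absurd h h1, fun h => absurd h h3⟩
  obtain ⟨G', hG'⟩ : ∃ G', G' = sw G x y b c := ⟨_, rfl⟩
  have e1ne : (sw G x y b c).t e₁ = G.t e₁ ∧ (sw G x y b c).h e₁ = G.h e₁ :=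
    sw_of_ne G x y h1b h1c
  have hj' : Joins G' e₁ x y := by
    rw [hG']
    unfold Joins
    rw [e1ne.1, e1ne.2]
    exact hj
  have hsep : ∀ Z : Finset V, x ∈ Z → y ∉ Z → ∀ f, (∀ z, z ∈ G'.cut Z → z = e₁ ∨ z = f) →
      False := by
    intro Z h1 h2 f h3
    rw [hG'] at h3
    exact sw_sep hG hx hy hX hvx hvy h1a h1b h1c h1d hab hdc h2a h2b h2c h2d hbc h1 h2 f h3
  have hsep' : ∀ Z : Finset V, ¬ (x ∈ Z ↔ y ∈ Z) → ∀ f, (∀ z, z ∈ G'.cut Z → z = e₁ ∨ z = f) →
      False := by
    intro Z h1 f h3
    by_cases h4 : x ∈ Z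
    · exact hsep Z h4 (fun h => h1 ⟨fun _ => h, fun _ => h4⟩) f h3
    · have h5 : y ∈ Z := by
        by_contra h
        exact h1 ⟨fun h' => absurd h' h4, fun h' => absurd h' h⟩
      refine hsep Zᶜ (mem_compl.2 h4) (by simpa using h5) f (fun z hz => ?_)
      rw [cut_compl] at hz
      exact h3 z hz
  have hsame : ∀ Z : Finset V, (x ∈ Z ↔ y ∈ Z) → G'.cut Z = G.cut Z := by
    intro Z h
    rw [hG']
    exact sw_cut_same G b c h
  refine ⟨G', ?_, ?_, ?_, ?_, ?_⟩
  · rw [bridgeless_iff]
    intro Z e he
    by_cases h : (x ∈ Z ↔ y ∈ Z)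
    · rw [hsame Z h] at he
      exact (bridgeless_iff G).1 hG Z e he
    · refine hsep' Z h e (fun z hz => ?_)
      rw [he, mem_singleton] at hz
      exact Or.inr hz
  · intro v
    have hxv : ∀ z, z ∈ G'.cut {x} → z ∈ ({e₁, a, c} : Finset E) := by
      intro z hz
      rw [mem_insert, mem_insert, mem_singleton]
      by_cases hzc : z = c
      · exact Or.inr (Or.inr hzc)
      by_cases hzb : z = b
      · exfalso
        subst hzb
        rw [mem_cut_one, hG'] at hz
        unfold sw at hz
        rw [mem_cut_one] at mb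
        by_cases h1 : G.t z = x
        · have h2 : ¬ G.h z = x := fun h => mb ⟨fun _ => h, fun _ => h1⟩
          apply hz
          simp [h1, h2, hbc, hxy.symm]
        · have h2 : G.h z = x := by
            by_contra h
            exact mb ⟨fun h' => absurd h' h1, fun h' => absurd h' h⟩
          apply hz
          simp [h1, h2, hbc, hxy.symm]
      · have h1 := sw_of_ne G x y hzb hzc
        rw [mem_cut_one, hG', h1.1, h1.2, ← mem_cut_one] at hz
        rcases (hvx z).1 hz with h | h | h
        · exact Or.inl h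
        · exact Or.inr (Or.inl h)
        · exact absurd h hzb
    have hyv : ∀ z, z ∈ G'.cut {y} → z ∈ ({e₁, d, b} : Finset E) := by
      intro z hz
      rw [mem_insert, mem_insert, mem_singleton]
      by_cases hzb : z = b
      · exact Or.inr (Or.inr hzb)
      by_cases hzc : z = c
      · exfalso
        subst hzc
        rw [mem_cut_one, hG'] at hz
        unfold sw at hz
        rw [mem_cut_one] at mc
        by_cases h1 : G.t z = y
        · have h2 : ¬ G.h z = y := fun h => mc ⟨fun _ => h, fun _ => h1⟩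
          apply hz
          simp [h1, h2, hbc.symm, hxy]
        · have h2 : G.h z = y := by
            by_contra h
            exact mc ⟨fun h' => absurd h' h1, fun h' => absurd h' h⟩
          apply hz
          simp [h1, h2, hbc.symm, hxy]
      · have h1 := sw_of_ne G x y hzb hzc
        rw [mem_cut_one, hG', h1.1, h1.2, ← mem_cut_one] at hz
        rcases (hvy z).1 hz with h | h | h
        · exact Or.inl h
        · exact Or.inr (Or.inl h)
        · exact absurd h hzc
    by_cases hv1 : v = x
    · rw [hv1]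
      exact (card_le_card hxv).trans card_le_three
    · by_cases hv3 : v = y
      · rw [hv3]
        exact (card_le_card hyv).trans card_le_three
      · rw [hsame {v} (by
          rw [mem_singleton, mem_singleton]
          exact ⟨fun h => absurd h.symm hv1, fun h => absurd h.symm hv3⟩)]
        exact hd v
  · unfold nl
    apply card_le_card
    intro z hz
    rw [mem_filter] at hz ⊢
    refine ⟨mem_univ _, fun h => hz.2 ?_⟩
    rw [hG']
    unfold sw
    simp only [h]
  · unfold c2
    apply card_lt_card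
    rw [ssubset_iff_of_subset]
    · refine ⟨X, ?_, ?_⟩
      · rw [mem_filter]
        exact ⟨mem_univ _, by rw [hc, card_pair hne]⟩
      · rw [mem_filter]
        rintro ⟨-, h⟩
        have h0 : ¬ (x ∈ X ↔ y ∈ X) := fun h => hy (h.1 hx)
        have h1 : e₁ ∈ G'.cut X := (hj'.cut_iff X).2 h0
        obtain ⟨p, q, hpq, h2⟩ := card_eq_two.1 h
        rw [h2, mem_insert, mem_singleton] at h1
        rcases h1 with rfl | rfl
        · refine hsep' X h0 q (fun z hz => ?_)
          rw [h2, mem_insert, mem_singleton] at hz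
          exact hz
        · refine hsep' X h0 p (fun z hz => ?_)
          rw [h2, mem_insert, mem_singleton] at hz
          exact hz.symm
    · intro Z hZ
      rw [mem_filter] at hZ ⊢
      refine ⟨mem_univ _, ?_⟩
      by_cases h0 : (x ∈ Z ↔ y ∈ Z)
      · rw [← hsame Z h0]
        exact hZ.2
      · exfalso
        have h1 : e₁ ∈ G'.cut Z := (hj'.cut_iff Z).2 h0
        obtain ⟨p, q, hpq, h2⟩ := card_eq_two.1 hZ.2
        rw [h2, mem_insert, mem_singleton] at h1
        rcases h1 with rfl | rfl
        · refine hsep' Z h0 q (fun z hz => ?_)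
          rw [h2, mem_insert, mem_singleton] at hz
          exact hz
        · refine hsep' Z h0 p (fun z hz => ?_)
          rw [h2, mem_insert, mem_singleton] at hz
          exact hz.symm
  · rintro ⟨ψ, hψ, hok⟩
    refine fix2 hA G X e₁ e₂ hne hc ψ (fun w h1 h2 => ?_) (fun e _ => hok e)
    rw [← hψ w]
    have h3 : w ≠ x ∧ w ≠ y := by
      rcases hj with ⟨h4, h5⟩ | ⟨h4, h5⟩
      · exact ⟨h4 ▸ h1, h5 ▸ h2⟩
      · exact ⟨h5 ▸ h2, h4 ▸ h1⟩
    symm
    rw [hG']
    exact gn_congr (fun z => (sw_eq_iff G x y b c z h3.1 h3.2).1)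
      (fun z => (sw_eq_iff G x y b c z h3.1 h3.2).2) ψ

/-- the irreducible graphs -/
structure Base3 (G : OrGraph V E) : Prop where
  br : G.Bridgeless
  no2 : ∀ X, (G.cut X).card ≠ 2
  deg : ∀ v, (G.cut {v}).card ≤ 3
  conn : ∀ X, G.cut X = ∅ → (∀ e, G.t e ∈ X → G.t e = G.h e) ∨ (∀ e, G.t e ∉ X → G.t e = G.h e)

lemma good_sides {G : OrGraph V E} {X : Finset V} (hX : G.cut X = ∅) {S T : Finset E}
    (hS : S = univ.filter (fun e => G.t e ∈ X)) (hT : T = univ.filter (fun e => G.t e ∉ X))
    (h1 : Gd A (del G S)) (h2 : Gd A (del G T)) : Gd A G := by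
  have hX' : ∀ z, (G.t z ∈ X ↔ G.h z ∈ X) := by
    intro z
    by_contra h
    have h1 := mem_cut.2 h
    rw [hX] at h1
    simp at h1
  obtain ⟨ψ, hψ, ho⟩ := h1
  obtain ⟨χ, hχ, ho'⟩ := h2
  refine ⟨fun e => if G.t e ∈ X then χ e else ψ e, fun v => ?_, fun e => ?_⟩
  · by_cases hv : v ∈ X
    · rw [← hχ v, gn_del]
      unfold gn
      refine Finset.sum_congr rfl fun e _ => ?_
      by_cases h1 : G.t e ∈ X
      · simp [hT, h1]
      · have h2 : G.t e ≠ v := fun h => h1 (h ▸ hv)
        have h3 : G.h e ≠ v := fun h => h1 ((hX' e).2 (h ▸ hv))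
        simp [h2, h3]
    · rw [← hψ v, gn_del]
      unfold gn
      refine Finset.sum_congr rfl fun e _ => ?_
      by_cases h1 : G.t e ∈ X
      · have h2 : G.t e ≠ v := fun h => hv (h ▸ h1)
        have h3 : G.h e ≠ v := fun h => hv (h ▸ (hX' e).1 h1)
        simp [h2, h3]
      · simp [hS, h1]
  · by_cases h1 : G.t e ∈ X
    · simpa [h1] using ho' e
    · simpa [h1] using ho e

theorem reduce (hN : ∀ x, A x → A (-x)) (H : ∀ K : OrGraph V E, Base3 K → Gd A K) (n : ℕ) :
    ∀ G : OrGraph V E, nl G * (2 ^ Fintype.card V + 1) + c2 G = n → G.Bridgeless →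
      (∀ v, (G.cut {v}).card ≤ 3) → Gd A G := by
  induction n using Nat.strong_induction_on with
  | _ n ih =>
    intro G hn hG hd
    have lower : ∀ G' : OrGraph V E, nl G' < nl G → G'.Bridgeless →
        (∀ v, (G'.cut {v}).card ≤ 3) → Gd A G' := by
      intro G' h1 h2 h3
      refine ih _ ?_ G' rfl h2 h3
      rw [← hn]
      have h4 := c2_le G'
      have h5 : (nl G' + 1) * (2 ^ Fintype.card V + 1) ≤ nl G * (2 ^ Fintype.card V + 1) :=
        Nat.mul_le_mul_right _ h1
      nlinarith
    by_cases hA : ∃ v, (G.cut {v}).card = 2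
    · obtain ⟨v, hv⟩ := hA
      obtain ⟨G', h1, h2, h3, h4⟩ := stepA hN hG hd hv
      exact h4 (lower G' h3 h1 h2)
    · push Not at hA
      by_cases hB : ∃ X, (G.cut X).card = 2
      · obtain ⟨X, hX⟩ := hB
        obtain ⟨e₁, e₂, hne, hc⟩ := card_eq_two.1 hX
        have hm : e₁ ∈ G.cut X := by rw [hc]; simp
        rw [mem_cut] at hm
        obtain ⟨G', h1, h2, h3, h4, h5⟩ : ∃ G' : OrGraph V E, G'.Bridgeless ∧
            (∀ v, (G'.cut {v}).card ≤ 3) ∧ nl G' ≤ nl G ∧ c2 G' < c2 G ∧
            (Gd A G' → Gd A G) := by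
          by_cases ht : G.t e₁ ∈ X
          · exact stepB hN hG hd hA ht (fun h => hm ⟨fun _ => h, fun _ => ht⟩) hne hc
              (joins_ends G e₁)
          · have hh : G.h e₁ ∈ X := by
              by_contra h
              exact hm ⟨fun h' => absurd h' ht, fun h' => absurd h' h⟩
            exact stepB hN hG hd hA hh ht hne hc (joins_ends G e₁).symm'
        refine h5 (ih _ ?_ G' rfl h1 h2)
        rw [← hn]
        have h6 : nl G' * (2 ^ Fintype.card V + 1) ≤ nl G * (2 ^ Fintype.card V + 1) :=
          Nat.mul_le_mul_right _ h3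
        omega
      · push Not at hB
        by_cases hbase : Base3 G
        · exact H G hbase
        · by_contra hcon
          apply hbase
          refine ⟨hG, hB, hd, ?_⟩
          · intro X hX
            by_contra h
            push Not at h
            obtain ⟨⟨e, he1, he2⟩, ⟨f, hf1, hf2⟩⟩ := h
            have hT : univ.filter (fun e => G.t e ∉ X) = univ.filter (fun e => G.t e ∈ Xᶜ) := by
              ext z
              simp
            refine hcon (good_sides hX rfl rfl (lower _ (nl_del (e := e) (by simpa using he1) he2)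
              (del_side hG hX rfl) (deg_del _ hd)) (lower _ (nl_del (e := f) (by simpa using hf1)
              hf2) ?_ (deg_del _ hd)))
            exact del_side hG (X := Xᶜ) (by rw [cut_compl]; exact hX) hT

lemma base_card {G : OrGraph V E} (hB : Base3 G) (v : V) (hv : (G.cut {v}).Nonempty) :
    (G.cut {v}).card = 3 := by
  have h1 := hB.deg v
  have h2 := hB.no2 {v}
  have h3 := card_ne_one hB.br {v}
  have h4 := card_pos.2 hv
  omega

theorem core_spec {G : OrGraph V E} (hB : Base3 G) :
    (core G).Cubic ∧ ThreeEdgeConnected (core G) := by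
  have hl : ∀ e, (core G).t e ≠ (core G).h e := fun e h => e.2 (congrArg Subtype.val h)
  refine ⟨?_, ?_⟩
  · intro v
    rw [deg_eq_cut hl v, core_card]
    simp only [map_singleton, Function.Embedding.subtype_apply]
    exact base_card hB v.1 v.2
  · intro X hX hX'
    rw [core_card]
    obtain ⟨Y, hY⟩ : ∃ Y, Y = X.map (Function.Embedding.subtype _) := ⟨_, rfl⟩
    rw [← hY]
    have h2 := hB.no2 Y
    have h3 := card_ne_one hB.br Y
    have h4 : (G.cut Y).card ≠ 0 := by
      intro h
      rw [card_eq_zero] at h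
      rcases hB.conn Y h with h5 | h5
      · obtain ⟨v, hv⟩ := hX
        obtain ⟨e, he⟩ := v.2
        have h6 : v.1 ∈ Y := by
          rw [hY, mem_map]
          exact ⟨v, hv, rfl⟩
        have h7 := mem_cut_one.1 he
        have h8 : (G.t e ∈ Y ↔ G.h e ∈ Y) := by
          by_contra h9
          have := mem_cut.2 h9
          rw [h] at this
          simp at this
        have h9 : G.t e ∈ Y := by
          by_cases h10 : G.t e = v.1
          · rw [h10]; exact h6
          · have h11 : G.h e = v.1 := by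
              by_contra h12
              exact h7 ⟨fun h' => absurd h' h10, fun h' => absurd h' h12⟩
            rw [h8, h11]
            exact h6
        have h10 := h5 e h9
        rw [h10] at h7
        exact h7 Iff.rfl
      · apply hX'
        rw [eq_univ_iff_forall]
        intro v
        by_contra hv
        obtain ⟨e, he⟩ := v.2
        have h6 : v.1 ∉ Y := by
          rw [hY, mem_map]
          rintro ⟨w, hw, h⟩
          have : w = v := Subtype.ext h
          exact hv (this ▸ hw)
        have h7 := mem_cut_one.1 he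
        have h8 : (G.t e ∈ Y ↔ G.h e ∈ Y) := by
          by_contra h9
          have := mem_cut.2 h9
          rw [h] at this
          simp at this
        have h9 : G.t e ∉ Y := by
          by_cases h10 : G.t e = v.1
          · rw [h10]; exact h6
          · have h11 : G.h e = v.1 := by
              by_contra h12
              exact h7 ⟨fun h' => absurd h' h10, fun h' => absurd h' h12⟩
            rw [h8, h11]
            exact h6
        have h10 := h5 e h9
        rw [h10] at h7
        exact h7 Iff.rfl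
    omega

lemma good_core {a0 : Γ} (h0 : A a0) {G : OrGraph V E} (h : Gd A (core G)) : Gd A G := by
  obtain ⟨ψ, hψ, ho⟩ := h
  refine ⟨fun e => if h : G.t e ≠ G.h e then ψ ⟨e, h⟩ else a0, fun v => ?_, fun e => ?_⟩
  · have hsplit : gn G (fun e => if h : G.t e ≠ G.h e then ψ ⟨e, h⟩ else a0) v =
        ∑ e : {e : E // G.t e ≠ G.h e}, ((if G.t e.1 = v then ψ e else 0) -
          (if G.h e.1 = v then ψ e else 0)) := by
      unfold gn
      rw [← Finset.sum_filter_add_sum_filter_not univ (fun e => G.t e ≠ G.h e)]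
      rw [Finset.sum_eq_zero (s := univ.filter fun e => ¬ (G.t e ≠ G.h e)), add_zero]
      · rw [← Finset.sum_subtype_of_mem (p := fun e => G.t e ≠ G.h e)]
        · refine Finset.sum_congr ?_ ?_
          · ext x
            simp [x.2]
          · intro x _
            simp [x.2]
        · intro x hx
          exact (mem_filter.1 hx).2
      · intro x hx
        rw [mem_filter, not_not] at hx
        simp [hx.2]
    rw [hsplit]
    by_cases hv : (G.cut {v}).Nonempty
    · refine Eq.trans ?_ (hψ ⟨v, hv⟩)
      unfold gn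
      refine Finset.sum_congr rfl fun e _ => ?_
      have h1 : (core G).t e = ⟨v, hv⟩ ↔ G.t e.1 = v := Subtype.ext_iff
      have h2 : (core G).h e = ⟨v, hv⟩ ↔ G.h e.1 = v := Subtype.ext_iff
      simp only [h1, h2]
    · refine Finset.sum_eq_zero fun e _ => ?_
      have h1 : G.t e.1 ≠ v := by
        rintro rfl
        exact hv ⟨e.1, (joins_ends G e.1).mem_cut_one e.2⟩
      have h2 : G.h e.1 ≠ v := by
        rintro rfl
        exact hv ⟨e.1, (joins_ends G e.1).symm'.mem_cut_one e.2.symm⟩
      simp [h1, h2]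
  · by_cases h : G.t e ≠ G.h e
    · simp only [h, dite_true, ne_eq, not_false_eq_true]
      exact ho _
    · simp only [h, dite_false]
      exact h0

lemma good_expand {G : OrGraph V E} {σ : Equiv.Perm (E × Bool)} (hσ : ∀ d, en G (σ d) = en G d)
    (h : Gd A (expand G σ)) : Gd A G := by
  obtain ⟨ψ, hψ, ho⟩ := h
  refine ⟨fun e => ψ (Sum.inl e), fun v => ?_, fun e => ho _⟩
  have h1 : ∑ d ∈ univ.filter (fun d => en G d = v), gn (expand G σ) ψ d = 0 :=
    Finset.sum_eq_zero fun d _ => hψ d
  refine Eq.trans ?_ h1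
  unfold gn
  rw [Finset.sum_comm, Fintype.sum_sum_type]
  rw [Finset.sum_eq_zero (s := (univ : Finset (E × Bool))), add_zero]
  · refine Finset.sum_congr rfl fun e _ => ?_
    rw [Finset.sum_sub_distrib, Finset.sum_ite_eq, Finset.sum_ite_eq]
    unfold expand en
    simp
  · intro d _
    rw [Finset.sum_sub_distrib, Finset.sum_ite_eq, Finset.sum_ite_eq]
    have h2 : (expand G σ).t (Sum.inr d) = d := rfl
    have h3 : (expand G σ).h (Sum.inr d) = σ d := rfl
    rw [h2, h3]
    simp [hσ d]

/-- **The reduction.** -/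
theorem reduction (hA : ∀ x, A x → A (-x)) {a0 : Γ} (h0 : A a0)
    (H : ∀ (V E : Type) [Fintype V] [Fintype E] [DecidableEq V] [DecidableEq E] (G : OrGraph V E),
      G.Cubic → ThreeEdgeConnected G → Gd A G) :
    ∀ (V E : Type) [Fintype V] [Fintype E] [DecidableEq V] [DecidableEq E] (G : OrGraph V E),
      G.Bridgeless → Gd A G := by
  intro V E _ _ _ _ G hG
  obtain ⟨σ, h1, h2⟩ := exists_sigma G
  refine good_expand h1 (reduce hA ?_ _ (expand G σ) rfl (expand_bridgeless hG h2)
    (expand_deg G σ))
  intro K hK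
  obtain ⟨h3, h4⟩ := core_spec hK
  exact good_core h0 (H _ _ (core K) h3 h4)

end Pool.Agent.Q253.OR
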