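import Pool.Agent.Q253.OD.Uni
import Pool.Agent.Q253.OR.Ind
import Pool.Agent.Q295.RG.Fl

/-!
# Oriented cycle double covers of simple graphs are flows
-/

set_option autoImplicit false
set_option linter.unusedSectionVars false

namespace Pool.Agent.Q253.OR

open Finset Pool.Agent.H160R2.HF Pool.Agent.Q234.HF Pool.Agent.Q253.OD Pool.Agent.TH505.OCDC

variable {V : Type}

/-- a list of natural numbers with sum one -/
theorem sum_one (L : List ℕ) (h : L.sum = 1) : ∃ i, ∀ n, L.getD n 0 = if n = i then 1 else 0 := by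
  induction L with
  | nil => simp at h
  | cons a L ih =>
    rw [List.sum_cons] at h
    by_cases ha : a = 0
    · subst ha
      rw [zero_add] at h
      obtain ⟨i, hi⟩ := ih h
      refine ⟨i + 1, fun n => ?_⟩
      cases n with
      | zero => simp
      | succ n =>
        rw [List.getD_cons_succ, hi n]
        simp
    · have h1 : a = 1 := by omega
      have h2 : L.sum = 0 := by omega
      subst h1
      refine ⟨0, fun n => ?_⟩
      cases n with
      | zero => simp
      | succ n =>
        rw [List.getD_cons_succ]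
        have h3 : ∀ x ∈ L, x = 0 := List.sum_eq_zero_iff.1 h2
        rw [if_neg (Nat.succ_ne_zero n)]
        rw [List.getD_eq_getElem?_getD]
        cases h4 : L[n]? with
        | none => rfl
        | some x => exact h3 x (List.mem_of_getElem? h4)

theorem getD_dc {G : SimpleGraph V} (C : List (Σ v : V, G.Walk v v)) (u v : V) (i : ℕ) :
    (C.map fun c => dc c.2 u v).getD i 0 = (C[i]?.map fun c => dc c.2 u v).getD 0 := by
  rw [List.getD_eq_getElem?_getD, List.getElem?_map]

/-- sums over the edges at a vertex -/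
theorem sum_edges [Fintype V] [DecidableEq V] (G : SimpleGraph V) [Fintype G.edgeSet]
    [DecidableEq G.edgeSet] {M : Type} [AddCommMonoid M] (g : V → V → M)
    (h0 : ∀ u v, ¬ G.Adj u v → g u v = 0) (v : V) :
    ∑ e : G.edgeSet, ((if sE G e = v then g (sE G e) (tE G e) else 0) +
      (if tE G e = v then g (tE G e) (sE G e) else 0)) = ∑ w, g v w := by
  have key : ∀ w, g v w = ∑ e : G.edgeSet, ((if sE G e = v ∧ tE G e = w then g v w else 0) +
      (if tE G e = v ∧ sE G e = w then g v w else 0)) := by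
    intro w
    by_cases hvw : G.Adj v w
    · rw [Finset.sum_eq_single_of_mem (⟨s(v, w), hvw⟩ : G.edgeSet) (mem_univ _)]
      · rcases (st_eq G hvw ⟨s(v, w), hvw⟩).1 rfl with ⟨h1, h2⟩ | ⟨h1, h2⟩
        · rw [if_pos ⟨h1, h2⟩, if_neg (fun h => hvw.ne (h.2.symm.trans h1).symm), add_zero]
        · rw [if_neg (fun h => hvw.ne (h.1.symm.trans h2)), if_pos ⟨h1, h2⟩, zero_add]
      · intro e _ he
        have h1 := (st_eq G hvw e).not.1 he
        push Not at h1
        rw [if_neg (fun h2 => h1.1 h2.1 h2.2), if_neg (fun h2 => h1.2 h2.1 h2.2), add_zero]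
    · rw [h0 v w hvw]
      simp
  rw [Finset.sum_congr rfl fun w _ => key w, Finset.sum_comm]
  refine Finset.sum_congr rfl fun e _ => ?_
  rw [Finset.sum_add_distrib]
  congr 1
  · by_cases h : sE G e = v
    · rw [if_pos h, Finset.sum_eq_single_of_mem (tE G e) (mem_univ _)]
      · rw [if_pos ⟨h, rfl⟩, h]
      · intro w _ hw
        rw [if_neg (fun h' => hw h'.2.symm)]
    · rw [if_neg h, Finset.sum_eq_zero]
      intro w _
      rw [if_neg (fun h' => h h'.1)]
  · by_cases h : tE G e = v
    · rw [if_pos h, Finset.sum_eq_single_of_mem (sE G e) (mem_univ _)]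
      · rw [if_pos ⟨h, rfl⟩, h]
      · intro w _ hw
        rw [if_neg (fun h' => hw h'.2.symm)]
    · rw [if_neg h, Finset.sum_eq_zero]
      intro w _
      rw [if_neg (fun h' => h h'.1)]

theorem flow_of_oc [Fintype V] [DecidableEq V] (G : SimpleGraph V) [Fintype G.edgeSet]
    [DecidableEq G.edgeSet] (h : OC G) : FlowOn Rt (sE G) (tE G) ∅ ∅ := by
  classical
  obtain ⟨C, hC1, hC2⟩ := h
  let D : V → V → List ℕ := fun u v => C.map fun c => dc c.2 u v
  have hD : ∀ u v i, (D u v).getD i 0 = (C[i]?.map fun c => dc c.2 u v).getD 0 :=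
    fun u v i => getD_dc C u v i
  refine ⟨fun e i => ((D (sE G e) (tE G e)).getD i 0 : ℤ) - ((D (tE G e) (sE G e)).getD i 0 : ℤ),
    fun v => ?_, fun e he => absurd he (notMem_empty _), fun e _ _ => ?_⟩
  · funext i
    rw [← bd_eval]
    have h1 := sum_edges G (fun u w => ((D u w).getD i 0 : ℤ) - ((D w u).getD i 0 : ℤ)) (by
      intro u w huw
      have h2 : ∀ a b, ¬ G.Adj a b → (D a b).getD i 0 = 0 := by
        intro a b hab
        rw [hD]
        cases C[i]? with
        | none => rfl
        | some c => exact dc_zero c.2 hab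
      show ((D u w).getD i 0 : ℤ) - ((D w u).getD i 0 : ℤ) = 0
      rw [h2 u w huw, h2 w u (fun h => huw h.symm)]
      simp) v
    have h3 : ∑ w, (((D v w).getD i 0 : ℤ) - ((D w v).getD i 0 : ℤ)) = 0 := by
      rw [Finset.sum_sub_distrib, ← Nat.cast_sum, ← Nat.cast_sum, sub_eq_zero]
      congr 1
      simp only [hD]
      cases C[i]? with
      | none => rfl
      | some c => exact dc_closed c.2 v
    refine Eq.trans ?_ (h1.trans h3)
    unfold bd
    refine Finset.sum_congr rfl fun e _ => ?_
    by_cases h4 : sE G e = v <;> by_cases h5 : tE G e = v <;> simp [h4, h5]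
  · have hadj := st_adj G e
    obtain ⟨i, hi⟩ := sum_one (D (sE G e) (tE G e)) (hC2 _ _ hadj)
    obtain ⟨j, hj⟩ := sum_one (D (tE G e) (sE G e)) (hC2 _ _ hadj.symm)
    refine ⟨i, j, ?_, ?_⟩
    · rintro rfl
      have h1 := hi i
      have h2 := hj i
      rw [if_pos rfl, hD] at h1 h2
      cases h3 : C[i]? with
      | none =>
        rw [h3] at h1
        simp at h1
      | some c =>
        rw [h3] at h1 h2
        have h4 := dc_le_one (hC1 c (List.mem_of_getElem? h3)).isTrail hadj.ne
        have h5 : dc c.2 (sE G e) (tE G e) = 1 := h1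
        have h6 : dc c.2 (tE G e) (sE G e) = 1 := h2
        omega
    · funext n
      show ((D (sE G e) (tE G e)).getD n 0 : ℤ) - ((D (tE G e) (sE G e)).getD n 0 : ℤ) = _
      rw [rt_apply, hi n, hj n]
      push_cast
      rfl

theorem flow_iff [Fintype V] [DecidableEq V] (G : SimpleGraph V) [Fintype G.edgeSet]
    [DecidableEq G.edgeSet] : OC G ↔ Gd Rt (⟨sE G, tE G⟩ : OrGraph V G.edgeSet) := by
  constructor
  · intro h
    obtain ⟨f, h1, _, h2⟩ := flow_of_oc G h
    exact ⟨f, h1, fun e => h2 e (notMem_empty _) (notMem_empty _)⟩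
  · rintro ⟨f, h1, h2⟩
    exact cycles_of_flow G ⟨f, h1, fun e he => absurd he (notMem_empty _), fun e _ _ => h2 e⟩

/-- changing the orientation and the names of the edges -/
theorem gd_equiv {E E' : Type} [Fintype V] [DecidableEq V] [Fintype E] [Fintype E']
    {Γ : Type} [AddCommGroup Γ] {A : Γ → Prop} (hA : ∀ x, A x → A (-x))
    (O : OrGraph V E) (O' : OrGraph V E') (φ : E ≃ E')
    (hφ : ∀ e, s(O.t e, O.h e) = s(O'.t (φ e), O'.h (φ e))) (h : Gd A O') : Gd A O := by
  obtain ⟨ψ, h1, h2⟩ := h
  refine ⟨fun e => if O.t e = O'.t (φ e) then ψ (φ e) else -ψ (φ e), fun v => ?_, fun e => ?_⟩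
  · refine Eq.trans ?_ (h1 v)
    unfold gn
    refine Fintype.sum_equiv φ _ _ fun e => ?_
    have h3 := hφ e
    rw [Sym2.eq_iff] at h3
    beta_reduce
    by_cases h4 : O.t e = O'.t (φ e)
    · rw [if_pos h4]
      have h5 : O.h e = O'.h (φ e) := by
        rcases h3 with h3 | h3
        · exact h3.2
        · rw [h3.2, ← h4, h3.1]
      rw [h4, h5]
    · rw [if_neg h4]
      rcases h3 with h3 | h3
      · exact absurd h3.1 h4
      · rw [h3.1, h3.2]
        by_cases h6 : O'.t (φ e) = v <;> by_cases h7 : O'.h (φ e) = v <;> simp [h6, h7]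
  · show A (if _ then _ else _)
    split_ifs
    · exact h2 _
    · exact hA _ (h2 _)

theorem gd_iff_hasFlow {E : Type} [Fintype V] [DecidableEq V] [Fintype E]
    {Γ : Type} [AddCommGroup Γ] (A : Γ → Prop) (O : OrGraph V E) :
    Gd A O ↔ Pool.Agent.Q295.RG.HasFlow O Γ {x | A x} := by
  have key : ∀ ψ : E → Γ, ∀ v, gn O ψ v = (∑ e with O.t e = v, ψ e) - ∑ e with O.h e = v, ψ e := by
    intro ψ v
    unfold gn
    rw [Finset.sum_sub_distrib, Finset.sum_filter, Finset.sum_filter]
  constructor
  · rintro ⟨ψ, h1, h2⟩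
    exact ⟨ψ, fun v => by
      have := h1 v
      rw [key, sub_eq_zero] at this
      exact this, h2⟩
  · rintro ⟨ψ, h1, h2⟩
    exact ⟨ψ, fun v => by rw [key, sub_eq_zero]; exact h1 v, h2⟩

end Pool.Agent.Q253.OR
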