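import Pool.Agent.Q253.OR.Sg

/-!
# Partners of large girth, and the simple graphs

`Far`, `Nice` and `main` are copied from the hand-in `MP_e59a69_co.NearlyBipartiteCubic` of helper295.
-/

set_option autoImplicit false
set_option linter.unusedSectionVars false

namespace Pool.Agent.Q253.OR

open Finset Pool.Agent.H160R2.HF Pool.Agent.Q234.HF Pool.Agent.Q295.RG Pool.Agent.Q253.OD
open Pool.Agent.TH505.OCDC

/-- Any two different edges of `F` are at distance at least `g`: no walk with fewer than `g` edges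
leads from an end of the first to an end of the second. -/
def Far (g : ℕ) {V E : Type} (O : OrGraph V E) (F : Finset E) : Prop :=
  ∀ e ∈ F, ∀ f ∈ F, e ≠ f → ∀ n < g, ∀ p : ℕ → V, (p 0 = O.t e ∨ p 0 = O.h e) →
    (p n = O.t f ∨ p n = O.h f) →
    ¬ ∀ i < n, ∃ a, (O.t a = p i ∧ O.h a = p (i + 1)) ∨ (O.t a = p (i + 1) ∧ O.h a = p i)

/-- 3-edge-connected cubic graphs in which every nonempty set of edges with all degrees even has at
least `g` edges, and which become bipartite when at most `ε |V|` edges are deleted, any two of them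
at distance at least `g`. -/
structure Nice (g : ℕ) (ε : ℝ) {V E : Type} [Fintype V] [Fintype E] [DecidableEq V]
    [DecidableEq E] (O : OrGraph V E) : Prop where
  cubic : O.Cubic
  conn : ThreeEdgeConnected O
  girth : ∀ C : Finset E, C.Nonempty → (∀ v, Even (O.deg C v)) → g ≤ C.card
  nearly : ∃ F : Finset E, (F.card : ℝ) ≤ ε * Fintype.card V ∧ Far g O F ∧
    ∃ B : Finset V, ∀ e, e ∉ F → (O.t e ∈ B ↔ O.h e ∉ B)

theorem main (g : ℕ) (ε : ℝ) (hε : 0 < ε) (V E : Type) [Fintype V] [Fintype E] [DecidableEq V]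
    [DecidableEq E] (O : OrGraph V E) (hc : O.Cubic) (h3 : ThreeEdgeConnected O) :
    ∃ (V' E' : Type) (_ : Fintype V') (_ : Fintype E') (_ : DecidableEq V') (_ : DecidableEq E')
      (O' : OrGraph V' E'), Nice g ε O' ∧
        ∀ (A : Type) [AddCommGroup A] (S : Set A), (∀ a ∈ S, -a ∈ S) →
          (HasFlow O' A S ↔ HasFlow O A S) := by
  classical
  have hr := rgraph_of O hc h3
  have hl := loopless_of O hc h3
  obtain ⟨N⟩ := exists_num hr.regular (by omega)
  obtain ⟨Λ, _, hΛ, G, hcard⟩ := exists_gad 3 (2 * g + 3) (⌈(Nat.card E : ℝ) / ε⌉₊ + 1) (by omega)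
  have : Fintype Λ := Fintype.ofFinite Λ
  have : Fintype (E2 V E G) := Fintype.ofFinite _
  refine ⟨V × {x : Λ // x ≠ 1}, E2 V E G, inferInstance, inferInstance, inferInstance,
    inferInstance, og2 N G, ⟨cubic2 N G hl, three_conn N G (by omega) hc h3, ?_,
      univ.image Sum.inl, ?_, ?_, univ.filter (fun p => G.par p.2.1 = false), ?_⟩, ?_⟩
  · intro C h1 h2
    have := even_sets N G (r := g) (by omega) hl C h1 h2
    omega
  · rw [Finset.card_image_of_injective _ Sum.inl_injective, Finset.card_univ,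
      ← Nat.card_eq_fintype_card, ← Nat.card_eq_fintype_card]
    by_cases hV : IsEmpty V
    · have hE : IsEmpty E := ⟨fun e => hV.elim (O.t e)⟩
      rw [Nat.card_of_isEmpty]
      simp only [Nat.cast_zero]
      positivity
    · rw [not_isEmpty_iff] at hV
      have h1 : 1 ≤ Nat.card V := Nat.card_pos
      have h2 : Nat.card {x : Λ // x ≠ 1} + 1 = Nat.card Λ := by
        have h3 := Set.ncard_add_ncard_compl ({1} : Set Λ)
        rw [Set.ncard_singleton] at h3
        have h4 : Nat.card {x : Λ // x ≠ 1} = ({1}ᶜ : Set Λ).ncard := rfl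
        omega
      have h3 : ⌈(Nat.card E : ℝ) / ε⌉₊ ≤ Nat.card {x : Λ // x ≠ 1} := by omega
      have h4 : (Nat.card E : ℝ) / ε ≤ Nat.card {x : Λ // x ≠ 1} :=
        (Nat.le_ceil _).trans (by exact_mod_cast h3)
      have h5 : Nat.card {x : Λ // x ≠ 1} ≤ Nat.card (V × {x : Λ // x ≠ 1}) := by
        rw [Nat.card_prod]
        exact Nat.le_mul_of_pos_left _ h1
      have h6 : (Nat.card E : ℝ) / ε ≤ Nat.card (V × {x : Λ // x ≠ 1}) :=
        h4.trans (by exact_mod_cast h5)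
      rw [div_le_iff₀ hε] at h6
      linarith
  · intro e' he' f' hf' hef n hn p h0 h1 h2
    rw [Finset.mem_image] at he' hf'
    obtain ⟨e, -, rfl⟩ := he'
    obtain ⟨f, -, rfl⟩ := hf'
    refine far2 N G n (by omega) e f (fun hh => hef (by rw [hh])) p ?_ ?_ ?_
    · rw [← ed_og2, mem_ed]
      rcases h0 with h0 | h0
      · exact Or.inl h0.symm
      · exact Or.inr h0.symm
    · rw [← ed_og2, mem_ed]
      rcases h1 with h1 | h1
      · exact Or.inl h1.symm
      · exact Or.inr h1.symm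
    · intro i hi
      obtain ⟨a, ha⟩ := h2 i hi
      refine ⟨a, ?_⟩
      rw [← ed_og2]
      rcases ha with ⟨h3, h4⟩ | ⟨h3, h4⟩
      · rw [ed, h3, h4]
      · rw [ed, h3, h4, Sym2.eq_swap]
  · intro f hf
    rcases f with e | ⟨v, y, i⟩
    · exact absurd (Finset.mem_image_of_mem _ (Finset.mem_univ e)) hf
    · rw [Finset.mem_filter, Finset.mem_filter]
      constructor
      · rintro - ⟨-, h2⟩
        have h3 : G.par (y.1 * G.t i) = false := h2
        rw [G.par_nx] at h3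
        exact absurd h3 (by decide)
      · intro _
        exact ⟨Finset.mem_univ _, y.2.1⟩
  · intro A _ S hS
    exact hasFlow2 N G hl S hS


variable {V E : Type} [Fintype V] [Fintype E] [DecidableEq V] [DecidableEq E]

theorem nearly_of {O : OrGraph V E} (h : G3 O) {g : ℕ} {ε : ℝ} (F : Finset E)
    (hF : (F.card : ℝ) ≤ ε * Fintype.card V) (hfar : Far g O F) (B : Finset V)
    (hB : ∀ e, e ∉ F → (O.t e ∈ B ↔ O.h e ∉ B)) :
    ∃ F' : Set (Sym2 V), F' ⊆ (sgr O).edgeSet ∧ (F'.ncard : ℝ) ≤ ε * Nat.card V ∧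
      (∀ e ∈ F', ∀ f ∈ F', e ≠ f → ∀ x ∈ e, ∀ y ∈ f, ∀ p : (sgr O).Walk x y, g ≤ p.length) ∧
      ∃ B : Set V, ∀ u v, (sgr O).Adj u v → s(u, v) ∉ F' → (u ∈ B ↔ v ∉ B) := by
  classical
  refine ⟨↑(F.image fun e => s(O.t e, O.h e)), ?_, ?_, ?_, (B : Set V), ?_⟩
  · intro x hx
    rw [mem_coe, mem_image] at hx
    obtain ⟨e, _, rfl⟩ := hx
    exact h.adj e
  · rw [Set.ncard_coe_finset, card_image_of_injective _ fun e f hef => h.par hef,
      Nat.card_eq_fintype_card]
    exact hF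
  · intro e he f hf hef x hx y hy p
    rw [mem_coe, mem_image] at he hf
    obtain ⟨e, he, rfl⟩ := he
    obtain ⟨f, hf, rfl⟩ := hf
    by_contra hlt
    push Not at hlt
    refine hfar e he f hf (fun hh => hef (by rw [hh])) p.length hlt p.getVert ?_ ?_ ?_
    · rw [SimpleGraph.Walk.getVert_zero]
      exact Sym2.mem_iff.1 hx
    · rw [SimpleGraph.Walk.getVert_length]
      exact Sym2.mem_iff.1 hy
    · intro i hi
      obtain ⟨_, a, ha⟩ := p.adj_getVert_succ hi
      exact ⟨a, Sym2.eq_iff.1 ha⟩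
  · rintro u v ⟨_, e, he⟩ hF'
    have h1 : e ∉ F := by
      intro h2
      apply hF'
      rw [mem_coe, mem_image]
      exact ⟨e, h2, he⟩
    have h2 := hB e h1
    rw [mem_coe, mem_coe]
    rw [Sym2.eq_iff] at he
    rcases he with ⟨h3, h4⟩ | ⟨h3, h4⟩
    · rw [← h3, ← h4]
      exact h2
    · rw [← h3, ← h4]
      tauto

/-- three edges leave every vertex set: there is no cut edge -/
theorem nocut_of {V : Type} (H : SimpleGraph V)
    (hc : ∀ X : Set V, X.Nonempty → Xᶜ.Nonempty →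
      3 ≤ {e : Sym2 V | ∃ x y, x ∈ X ∧ y ∉ X ∧ H.Adj x y ∧ e = s(x, y)}.ncard)
    (u v : V) (huv : H.Adj u v) : (H.deleteEdges {s(u, v)}).Reachable u v := by
  by_contra hn
  have h1 := hc {x | (H.deleteEdges {s(u, v)}).Reachable u x}
    ⟨u, SimpleGraph.Reachable.refl _⟩ ⟨v, hn⟩
  have h2 : {e : Sym2 V | ∃ x y, x ∈ {x | (H.deleteEdges {s(u, v)}).Reachable u x} ∧
      y ∉ {x | (H.deleteEdges {s(u, v)}).Reachable u x} ∧ H.Adj x y ∧ e = s(x, y)} ⊆
      {s(u, v)} := by
    rintro e ⟨x, y, hx, hy, hxy, rfl⟩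
    by_contra h3
    apply hy
    refine hx.trans (SimpleGraph.Adj.reachable ?_)
    rw [SimpleGraph.deleteEdges_adj]
    exact ⟨hxy, h3⟩
  have h3 := Set.ncard_le_ncard h2
  rw [Set.ncard_singleton] at h3
  omega

theorem bridgeless_of [Fintype V] [DecidableEq V] (G : SimpleGraph V) [Fintype G.edgeSet]
    [DecidableEq G.edgeSet]
    (h : ∀ u v : V, G.Adj u v → (G.deleteEdges {s(u, v)}).Reachable u v) :
    (⟨sE G, tE G⟩ : OrGraph V G.edgeSet).Bridgeless := by
  rw [bridgeless_iff]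
  intro X e he
  have h1 := br_conv G h X (disjoint_empty_right _)
  rw [sdiff_empty] at h1
  apply h1
  have h2 : Pool.Agent.TH676.A.crs (sE G) (tE G) X =
      (⟨sE G, tE G⟩ : OrGraph V G.edgeSet).cut X := by
    ext f
    rw [Pool.Agent.TH676.A.mem_crs, mem_cut]
  rw [h2, he, card_singleton]

/-- the colours as elements of the four-group -/
def col : Fin 3 → ZMod 2 × ZMod 2 := ![(0, 1), (1, 0), (1, 1)]

/-- 3-edge-coloured cubic graphs -/
theorem oc_of_col [Fintype V] (H : SimpleGraph V) (h3 : ∀ v, (H.neighborSet v).ncard = 3)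
    (c : Sym2 V → Fin 3) (hc : ∀ e ∈ H.edgeSet, ∀ f ∈ H.edgeSet, e ≠ f → (∃ v, v ∈ e ∧ v ∈ f) →
      c e ≠ c f) : OC H := by
  classical
  refine cycles_of_flow H (flow_of_nz ⟨fun e => col (c e.1), fun e _ => ?_, fun v => ?_⟩)
  · have h1 : ∀ i, col i ≠ 0 := by decide
    exact h1 _
  · have h1 := sum_edges H (fun u w => if H.Adj u w then col (c s(u, w)) else 0)
      (fun u w huw => if_neg huw) v
    obtain ⟨x, y, z, hxy, hxz, hyz, hN⟩ := Set.ncard_eq_three.1 (h3 v)
    have hm : ∀ w, H.Adj v w ↔ w = x ∨ w = y ∨ w = z := by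
      intro w
      rw [← SimpleGraph.mem_neighborSet, hN]
      simp
    have hx := (hm x).2 (Or.inl rfl)
    have hy := (hm y).2 (Or.inr (Or.inl rfl))
    have hz := (hm z).2 (Or.inr (Or.inr rfl))
    have hne : ∀ a b, H.Adj v a → H.Adj v b → a ≠ b → c s(v, a) ≠ c s(v, b) := by
      intro a b ha hb hab
      refine hc _ ha _ hb (fun h => hab ?_) ⟨v, Sym2.mem_mk_left _ _, Sym2.mem_mk_left _ _⟩
      rw [Sym2.eq_iff] at h
      rcases h with h | h
      · exact h.2
      · exact h.2.trans h.1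
    have h2 : ∑ w, (if H.Adj v w then col (c s(v, w)) else 0) = 0 := by
      rw [← Finset.sum_subset (Finset.subset_univ ({x, y, z} : Finset V))]
      · rw [Finset.sum_insert (by simp [hxy, hxz]), Finset.sum_pair hyz, if_pos hx, if_pos hy,
          if_pos hz]
        have h4 : ∀ i j k : Fin 3, i ≠ j → i ≠ k → j ≠ k → col i + (col j + col k) = 0 := by
          decide
        exact h4 _ _ _ (hne x y hx hy hxy) (hne x z hx hz hxz) (hne y z hy hz hyz)
      · intro w _ hw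
        rw [if_neg]
        intro h
        apply hw
        simpa using (hm w).1 h
    refine Eq.trans (Finset.sum_congr rfl fun e _ => ?_) (h1.trans h2)
    have h5 := st_adj H e
    rw [if_pos h5, if_pos h5.symm, st_mk H e, Sym2.eq_swap, st_mk H e]

/-- **Reduction.** -/
theorem final (g : ℕ) (ε : ℝ) (hε : 0 < ε)
    (H : ∀ (V : Type) [Fintype V] (H : SimpleGraph V), (∀ v, (H.neighborSet v).ncard = 3) →
      (∀ X : Set V, X.Nonempty → Xᶜ.Nonempty →
        3 ≤ {e : Sym2 V | ∃ x y, x ∈ X ∧ y ∉ X ∧ H.Adj x y ∧ e = s(x, y)}.ncard) →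
      (∀ (v : V) (c : H.Walk v v), c.IsCycle → g ≤ c.length) →
      (∃ F' : Set (Sym2 V), F' ⊆ H.edgeSet ∧ (F'.ncard : ℝ) ≤ ε * Nat.card V ∧
        (∀ e ∈ F', ∀ f ∈ F', e ≠ f → ∀ x ∈ e, ∀ y ∈ f, ∀ p : H.Walk x y, g ≤ p.length) ∧
        ∃ B : Set V, ∀ u v, H.Adj u v → s(u, v) ∉ F' → (u ∈ B ↔ v ∉ B)) →
      (¬ ∃ c : Sym2 V → Fin 3, ∀ e ∈ H.edgeSet, ∀ f ∈ H.edgeSet, e ≠ f → (∃ v, v ∈ e ∧ v ∈ f) →
        c e ≠ c f) → OC H)
    (V : Type) [Fintype V] (G : SimpleGraph V)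
    (h : ∀ u v : V, G.Adj u v → (G.deleteEdges {s(u, v)}).Reachable u v) : OC G := by
  classical
  rw [flow_iff]
  refine reduction (fun x hx => Rt.ng hx) (a0 := rt 0 1) (Rt.of (by norm_num)) ?_ _ _ _
    (bridgeless_of G h)
  intro W D _ _ _ _ O hc h3
  obtain ⟨V', E', _, _, _, _, O', h5, h6⟩ := main (max g 3) ε hε W D O hc h3
  rw [gd_iff_hasFlow, ← h6 (ℕ → ℤ) {x | Rt x} (fun x hx => Rt.ng hx), ← gd_iff_hasFlow]
  have hG3 : G3 O' := fun C h1 h2 => (le_max_right _ _).trans (h5.girth C h1 h2)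
  by_cases hcol : ∃ c : Sym2 V' → Fin 3, ∀ e ∈ (sgr O').edgeSet, ∀ f ∈ (sgr O').edgeSet, e ≠ f →
      (∃ v, v ∈ e ∧ v ∈ f) → c e ≠ c f
  · obtain ⟨c, hc⟩ := hcol
    exact gd_of_oc hG3 (oc_of_col (sgr O') (cubic_of hG3 h5.cubic) c hc)
  refine gd_of_oc hG3 (H V' (sgr O') (cubic_of hG3 h5.cubic) (conn_of hG3 h5.conn)
    (fun v c hc => girth_of' hG3 (fun C h1 h2 => (le_max_left _ _).trans (h5.girth C h1 h2)) v c hc)
    ?_ hcol)
  obtain ⟨F, h7, h8, B, h9⟩ := h5.nearly
  obtain ⟨F', k1, k2, k3, k4⟩ := nearly_of hG3 F h7 h8 B h9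
  exact ⟨F', k1, k2, fun e he f hf hef x hx y hy p =>
    (le_max_left _ _).trans (k3 e he f hf hef x hx y hy p), k4⟩

end Pool.Agent.Q253.OR
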