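import Pool.Agent.Q253.OR.Back

/-!
# The simple graph of a multigraph of girth at least three
-/

set_option autoImplicit false
set_option linter.unusedSectionVars false

namespace Pool.Agent.Q253.OR

open Finset Pool.Agent.H160R2.HF Pool.Agent.Q234.HF Pool.Agent.Q253.OD Pool.Agent.TH505.OCDC

variable {V E : Type} [Fintype V] [Fintype E] [DecidableEq V] [DecidableEq E]

/-- the simple graph -/
def sgr (O : OrGraph V E) : SimpleGraph V where
  Adj x y := x ≠ y ∧ ∃ e, s(O.t e, O.h e) = s(x, y)
  symm := ⟨fun _ _ h => ⟨h.1.symm, h.2.imp fun _ he => he.trans Sym2.eq_swap⟩⟩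
  loopless := ⟨fun _ h => h.1 rfl⟩

theorem deg_sum (O : OrGraph V E) (C : Finset E) (v : V) :
    O.deg C v = ∑ e ∈ C, ((if O.t e = v then 1 else 0) + (if O.h e = v then 1 else 0)) := by
  unfold OrGraph.deg
  rw [Finset.sum_add_distrib, card_filter, card_filter]

/-- girth at least three -/
def G3 (O : OrGraph V E) : Prop :=
  ∀ C : Finset E, C.Nonempty → (∀ v, Even (O.deg C v)) → 3 ≤ C.card

theorem G3.loop {O : OrGraph V E} (h : G3 O) (e : E) : O.t e ≠ O.h e := by
  intro he
  have h1 := h {e} (singleton_nonempty e) (fun v => by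
    rw [deg_sum, Finset.sum_singleton, he]
    exact Even.add_self _)
  simp at h1

theorem G3.par {O : OrGraph V E} (h : G3 O) {e f : E}
    (hef : s(O.t e, O.h e) = s(O.t f, O.h f)) : e = f := by
  by_contra hne
  have h1 := h {e, f} (insert_nonempty _ _) (fun v => by
    rw [deg_sum, Finset.sum_pair hne]
    rw [Sym2.eq_iff] at hef
    rcases hef with ⟨h1, h2⟩ | ⟨h1, h2⟩
    · rw [h1, h2]
      exact Even.add_self _
    · rw [h1, h2, add_comm (if O.h f = v then 1 else 0)]
      exact Even.add_self _)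
  rw [card_pair hne] at h1
  omega

theorem G3.adj {O : OrGraph V E} (h : G3 O) (e : E) : (sgr O).Adj (O.t e) (O.h e) :=
  ⟨h.loop e, e, rfl⟩

/-- the edges of the multigraph are the edges of the simple graph -/
noncomputable def G3.eq {O : OrGraph V E} (h : G3 O) : E ≃ (sgr O).edgeSet :=
  Equiv.ofBijective (fun e => ⟨s(O.t e, O.h e), h.adj e⟩) ⟨fun e f hef => by
    simp only [Subtype.mk.injEq] at hef
    exact h.par hef, fun e => by
    obtain ⟨e, he⟩ := e
    induction e using Sym2.ind with
    | _ x y =>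
      obtain ⟨_, f, hf⟩ := (SimpleGraph.mem_edgeSet _).1 he
      exact ⟨f, Subtype.ext hf⟩⟩

theorem gd_of_oc {O : OrGraph V E} (h : G3 O) (hc : OC (sgr O)) : Gd Rt O := by
  classical
  have : Fintype (sgr O).edgeSet := Fintype.ofFinite _
  refine gd_equiv (fun x hx => Rt.ng hx) O _ h.eq (fun e => ?_) ((flow_iff (sgr O)).1 hc)
  exact (st_mk (sgr O) (h.eq e)).symm

theorem cubic_of {O : OrGraph V E} (h : G3 O) (hc : O.Cubic) (v : V) :
    ((sgr O).neighborSet v).ncard = 3 := by
  classical
  let other : E → V := fun e => if O.t e = v then O.h e else O.t e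
  have hT : ∀ e ∈ univ.filter (fun e => O.t e = v) ∪ univ.filter (fun e => O.h e = v),
      s(O.t e, O.h e) = s(v, other e) := by
    intro e he
    rw [mem_union, mem_filter, mem_filter] at he
    by_cases h1 : O.t e = v
    · simp only [other, if_pos h1]
      rw [h1]
    · have h2 : O.h e = v := by
        rcases he with he | he
        · exact absurd he.2 h1
        · exact he.2
      simp only [other, if_neg h1]
      rw [h2, Sym2.eq_swap]
  have h3 : ((univ.filter (fun e => O.t e = v) ∪ univ.filter (fun e => O.h e = v)).image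
      other).card = 3 := by
    rw [card_image_of_injOn, card_union_of_disjoint]
    · exact hc v
    · rw [disjoint_filter]
      intro e _ h1 h2
      exact h.loop e (h1.trans h2.symm)
    · intro e he f hf hef
      apply h.par
      rw [hT e he, hT f hf, hef]
  rw [← h3, ← Set.ncard_coe_finset]
  congr 1
  ext w
  rw [SimpleGraph.mem_neighborSet, mem_coe, mem_image]
  constructor
  · rintro ⟨hne, e, he⟩
    rw [Sym2.eq_iff] at he
    rcases he with ⟨h1, h2⟩ | ⟨h1, h2⟩
    · exact ⟨e, by simp [h1], by simp [other, h1, h2]⟩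
    · refine ⟨e, by simp [h2], ?_⟩
      simp only [other, h1, if_neg (Ne.symm hne)]
  · rintro ⟨e, he, rfl⟩
    have h4 := hT e he
    refine ⟨?_, e, h4⟩
    intro h5
    rw [← h5, Sym2.eq_iff] at h4
    apply h.loop e
    rcases h4 with ⟨h6, h7⟩ | ⟨h6, h7⟩ <;> rw [h6, h7]

theorem conn_of {O : OrGraph V E} (h : G3 O) (hc : ThreeEdgeConnected O) (X : Set V)
    (h1 : X.Nonempty) (h2 : Xᶜ.Nonempty) :
    3 ≤ {e : Sym2 V | ∃ x y, x ∈ X ∧ y ∉ X ∧ (sgr O).Adj x y ∧ e = s(x, y)}.ncard := by
  classical
  have h3 := hc (univ.filter (· ∈ X)) (by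
    obtain ⟨x, hx⟩ := h1
    exact ⟨x, by simpa using hx⟩) (by
    obtain ⟨x, hx⟩ := h2
    intro h4
    have h5 : x ∈ univ.filter (· ∈ X) := by rw [h4]; exact mem_univ _
    exact hx (by simpa using h5))
  have h4 : ((O.cut (univ.filter (· ∈ X))).image (fun e => s(O.t e, O.h e))).card =
      (O.cut (univ.filter (· ∈ X))).card :=
    card_image_of_injective _ fun e f hef => h.par hef
  rw [← h4, ← Set.ncard_coe_finset] at h3
  refine h3.trans (Set.ncard_le_ncard ?_ (Set.toFinite _))
  intro e he
  rw [mem_coe, mem_image] at he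
  obtain ⟨f, hf, rfl⟩ := he
  rw [mem_cut] at hf
  simp only [mem_filter, mem_univ, true_and] at hf
  by_cases h5 : O.t f ∈ X
  · exact ⟨_, _, h5, fun h6 => hf ⟨fun _ => h6, fun _ => h5⟩, h.adj f, rfl⟩
  · have h6 : O.h f ∈ X := by
      by_contra h7
      exact hf ⟨fun h' => absurd h' h5, fun h' => absurd h' h7⟩
    exact ⟨_, _, h6, h5, (h.adj f).symm, Sym2.eq_swap⟩

theorem girth_of' {O : OrGraph V E} (h : G3 O) {g : ℕ}
    (hg : ∀ C : Finset E, C.Nonempty → (∀ v, Even (O.deg C v)) → g ≤ C.card)
    (v : V) (c : (sgr O).Walk v v) (hc : c.IsCycle) : g ≤ c.length := by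
  classical
  have hnd := hc.isTrail.edges_nodup
  have hedge : ∀ x ∈ c.edges, ∃ e, s(O.t e, O.h e) = x := by
    intro x hx
    have h1 := c.edges_subset_edgeSet hx
    induction x using Sym2.ind with
    | _ a b =>
      obtain ⟨_, e, he⟩ := (SimpleGraph.mem_edgeSet _).1 h1
      exact ⟨e, he⟩
  have hcard : (univ.filter fun e => s(O.t e, O.h e) ∈ c.edges).card = c.length := by
    rw [← SimpleGraph.Walk.length_edges, ← List.toFinset_card_of_nodup hnd]
    rw [← card_image_of_injective _ (fun e f (hef : s(O.t e, O.h e) = s(O.t f, O.h f)) => h.par hef)]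
    congr 1
    ext x
    rw [mem_image, List.mem_toFinset]
    constructor
    · rintro ⟨e, he, rfl⟩
      exact (mem_filter.1 he).2
    · intro hx
      obtain ⟨e, he⟩ := hedge x hx
      exact ⟨e, mem_filter.2 ⟨mem_univ _, he ▸ hx⟩, he⟩
  rw [← hcard]
  refine hg _ ?_ fun w => ?_
  · rw [← card_pos, hcard]
    exact lt_of_lt_of_le (by norm_num) hc.three_le_length
  · have h1 := (hc.isTrail.even_countP_edges_iff w).2 (fun h => absurd rfl h)
    have h2 : O.deg (univ.filter fun e => s(O.t e, O.h e) ∈ c.edges) w =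
        c.edges.countP (fun e => decide (w ∈ e)) := by
      rw [List.countP_eq_length_filter, ← List.toFinset_card_of_nodup (hnd.filter _)]
      rw [deg_sum]
      have h3 : ∀ e, ((if O.t e = w then 1 else 0) + (if O.h e = w then 1 else 0) : ℕ) =
          if w ∈ s(O.t e, O.h e) then 1 else 0 := by
        intro e
        have h4 := h.loop e
        by_cases h5 : O.t e = w
        · have h6 : O.h e ≠ w := fun h6 => h4 (h5.trans h6.symm)
          rw [if_pos h5, if_neg h6, if_pos (Sym2.mem_iff.2 (Or.inl h5.symm))]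
        · by_cases h6 : O.h e = w
          · rw [if_neg h5, if_pos h6, if_pos (Sym2.mem_iff.2 (Or.inr h6.symm))]
          · rw [if_neg h5, if_neg h6, if_neg]
            intro h8
            rcases Sym2.mem_iff.1 h8 with h7 | h7
            · exact h5 h7.symm
            · exact h6 h7.symm
      rw [Finset.sum_congr rfl fun e _ => h3 e, ← card_filter]
      rw [← card_image_of_injective _ (fun e f (hef : s(O.t e, O.h e) = s(O.t f, O.h f)) => h.par hef)]
      congr 1
      ext x
      rw [mem_image, List.mem_toFinset, List.mem_filter, decide_eq_true_eq]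
      constructor
      · rintro ⟨e, he, rfl⟩
        rw [mem_filter, mem_filter] at he
        exact ⟨he.1.2, he.2⟩
      · rintro ⟨hx, hw⟩
        obtain ⟨e, he⟩ := hedge x hx
        refine ⟨e, ?_, he⟩
        rw [mem_filter, mem_filter]
        exact ⟨⟨mem_univ _, he ▸ hx⟩, he ▸ hw⟩
    rw [h2]
    exact h1

end Pool.Agent.Q253.OR
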